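import Pool.Agent.helper16.CVL.SpecD

/-! # Row cvd:LOM (MP_70a088_an): the loss is monotone in the time along a line -/

set_option autoImplicit false

open Complex Metric Set Filter Topology MeasureTheory
open HY (UD T S hd UN RM)
open RT (Dyn it Hon PB VC Lv UC TD rm lf cr pd bl gr hdf Lf IB)
open RB (VL LO FLS FL CLS FR TL TLL INN)
open PL (DK ht tr SUBH INR)
open CVL

noncomputable section

namespace CVD

theorem LOM (hLEV : LEV_stmt) (hTHC : RT.THC_stmt) (hTSP : RT.TSP_stmt) : LOM_stmt := by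
  intro Y s hY x hx n t v a hvt hLO
  obtain ⟨z, hz, hpd, ha⟩ := hLO
  obtain ⟨hs0, hs1, hJ, hL⟩ := hLEV Y s hY
  have hxv : it Y v x ∈ Y.J := (hJ x hx v).1
  have e1 : n + (t - v) + v = n + t := by omega
  have e2 : n + t - v = n + (t - v) := by omega
  have e3 : n + t - t = n := by omega
  have e4 : n + (t - v) - (t - v) = n := by omega
  have hit : ∀ y : ℂ, it Y t y = it Y (t - v) (it Y v y) := by
    intro y
    show Y.f^[t] y = Y.f^[t - v] (Y.f^[v] y)
    rw [← Function.iterate_add_apply, Nat.sub_add_cancel hvt]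
  obtain ⟨hT1, _, _, _, _, _, hw1⟩ := hL x hx (n + t)
  obtain ⟨hT2, _, _, _, _, _, hw2⟩ := hL (it Y v x) hxv (n + (t - v))
  obtain ⟨hd1, hm1, _⟩ := hw1 v (by omega)
  obtain ⟨hd2, hm2, _⟩ := hw2 (t - v) (by omega)
  rw [e2] at hm1
  rw [e4, ← hit] at hm2
  have hT3 : TD s (VL Y n (it Y t x)) := (hL (it Y t x) (hJ x hx t).1 n).1
  refine ⟨z, ?_, ?_, ?_⟩
  · rw [e1]; exact hz
  · rw [e1]; exact hpd
  · rw [e1]
    have hch := hTHC s (VL Y (n + t) x) (VL Y (n + (t - v)) (it Y v x)) (VL Y n (it Y t x)) (it Y v) (it Y (t - v))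
      hT1 hT2 hT3 hd1 hd2 hm1 hm2 z hz
    have hfun : (fun z => it Y (t - v) (it Y v z)) = it Y t := by
      funext y; exact (hit y).symm
    rw [hfun] at hch
    rw [hch] at ha
    obtain ⟨_, hg0, _, _⟩ := hTSP s (VL Y (n + t) x) (VL Y (n + (t - v)) (it Y v x)) (it Y v) hT1 hT2 hd1 hm1 z hz
    obtain ⟨_, _, hh1, _⟩ := hTSP s (VL Y (n + (t - v)) (it Y v x)) (VL Y n (it Y t x)) (it Y (t - v)) hT2 hT3 hd2 hm2
      (it Y v z) (hm1 hz)
    nlinarith [mul_le_mul_of_nonneg_left hh1 hg0]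

end CVD

end
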